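import Mathlib
import Pool.Agent.Helper2.IntVal

/-!
Let `D` be an integrally closed domain with field of fractions `K` and let `A ⊇ D` be a `D`-algebra,
finitely generated as a `D`-module. Then `Int_K(A, A')` is the integral closure of `Int_K(A)`.
-/

open Polynomial TensorProduct

namespace Pool.Agent.Results.MP_457b0e_al.IntegralClosure

section defs

variable (D K A : Type*) [CommRing D] [Field K] [Algebra D K] [Ring A] [Algebra D A]

/-- `Int_K(A)`: the ring of polynomials `f ∈ K[X]` with `f(A) ⊆ A`. Here `f` is evaluated in the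
`K`-algebra `B = K ⊗[D] A`, into which `A` is mapped by `a ↦ 1 ⊗ a`. -/
def intK : Subalgebra D K[X] where
  carrier := {f | ∀ a : A, ∃ a' : A, aeval ((1 : K) ⊗ₜ[D] a) f = (1 : K) ⊗ₜ[D] a'}
  mul_mem' := by
    intro f g hf hg a
    obtain ⟨b, hb⟩ := hf a
    obtain ⟨c, hc⟩ := hg a
    exact ⟨b * c, by rw [map_mul, hb, hc, Algebra.TensorProduct.tmul_mul_tmul, one_mul]⟩
  add_mem' := by
    intro f g hf hg a
    obtain ⟨b, hb⟩ := hf a
    obtain ⟨c, hc⟩ := hg a
    exact ⟨b + c, by rw [map_add, hb, hc, TensorProduct.tmul_add]⟩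
  algebraMap_mem' := by
    intro d a
    refine ⟨algebraMap D A d, ?_⟩
    rw [IsScalarTower.algebraMap_apply D K K[X], AlgHom.commutes,
      Algebra.TensorProduct.algebraMap_apply, Algebra.algebraMap_self_apply,
      Algebra.algebraMap_eq_smul_one, Algebra.algebraMap_eq_smul_one,
      TensorProduct.smul_tmul]

/-- `Int_K(A, A')`: the polynomials `f ∈ K[X]` such that `f(a)` is integral over `D` for all
`a ∈ A`. -/
def intKInt : Set K[X] :=
  {f | ∀ a : A, IsIntegral D (aeval ((1 : K) ⊗ₜ[D] a) f)}

end defs

open Pool.Agent.Helper2.IntVal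

theorem nontrivial_tensor (D K A : Type*) [CommRing D] [IsDomain D] [Field K] [Algebra D K]
    [IsFractionRing D K] [Ring A] [Algebra D A] (hinj : Function.Injective (algebraMap D A)) :
    Nontrivial (K ⊗[D] A) := by
  have hflat : Module.Flat D K := IsLocalization.flat K (nonZeroDivisors D)
  have h1 := Module.Flat.lTensor_preserves_injective_linearMap (M := K) (Algebra.linearMap D A) hinj
  refine ⟨⟨(1 : K) ⊗ₜ[D] (1 : A), 0, ?_⟩⟩
  intro h0
  have h2 : (LinearMap.lTensor K (Algebra.linearMap D A)) ((1 : K) ⊗ₜ[D] (1 : D)) = 0 := by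
    rw [LinearMap.lTensor_tmul]
    simpa using h0
  have h3 : (1 : K) ⊗ₜ[D] (1 : D) = 0 := h1 (by rw [h2, map_zero])
  have h4 := congrArg (TensorProduct.rid D K) h3
  simp at h4

/-- For every integrally closed domain `D` with field of fractions `K`, and every `D`-algebra
`A ⊇ D` that is finitely generated as a `D`-module, the integral closure of `Int_K(A)` in
`K(X)` is `Int_K(A, A')`. (Torsion-freeness of `A` is not needed.) -/
theorem result (D K A : Type*) [CommRing D] [IsDomain D] [IsIntegrallyClosed D] [Field K]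
    [Algebra D K] [IsFractionRing D K] [Ring A] [Algebra D A] [Module.Finite D A]
    (hinj : Function.Injective (algebraMap D A)) :
    (integralClosure (intK D K A) (RatFunc K) : Set (RatFunc K)) =
      algebraMap K[X] (RatFunc K) '' intKInt D K A := by
  have hB : Nontrivial (K ⊗[D] A) := nontrivial_tensor D K A hinj
  let ι : A →ₐ[D] K ⊗[D] A := Algebra.TensorProduct.includeRight
  have hι : ∀ a, ι a = (1 : K) ⊗ₜ[D] a := fun a => rfl
  have hinjX : Function.Injective (algebraMap K[X] (RatFunc K)) :=
    IsFractionRing.injective K[X] (RatFunc K)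
  ext h
  constructor
  · intro hh
    have hh : IsIntegral (intK D K A) h := hh
    have h1 : IsIntegral K[X] h := hh.tower_top
    obtain ⟨f, rfl⟩ := IsIntegrallyClosed.isIntegral_iff.mp h1
    rw [isIntegral_algebraMap_iff hinjX] at hh
    refine ⟨f, ?_, rfl⟩
    intro a
    exact converse_aux ι a (intK D K A) (fun g hg => hg a) hh
  · rintro ⟨f, hf, rfl⟩
    change IsIntegral (intK D K A) (algebraMap K[X] (RatFunc K) f)
    rw [isIntegral_algebraMap_iff hinjX]
    obtain ⟨s, k, hk⟩ := main_aux (D := D) (K := K) ι hf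
    have hmon : ((psi D s) ^ (k + 1)).Monic := (psi_monic D s).pow (k + 1)
    have hdeg : ((psi D s) ^ (k + 1)).natDegree ≠ 0 := by
      rw [(psi_monic D s).natDegree_pow]
      have h2 : (psi D s).natDegree = s + s.factorial := by
        rw [psi, (monic_X_pow s).natDegree_mul (monic_X_pow_sub_C 1 (Nat.factorial_ne_zero s)),
          natDegree_X_pow, natDegree_X_pow_sub_C]
      rw [h2]
      have := Nat.factorial_pos s
      positivity
    have hmem : aeval f ((psi D s) ^ (k + 1)) ∈ intK D K A := by
      intro a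
      obtain ⟨a', ha'⟩ := hk a
      refine ⟨a', ?_⟩
      rw [← hι a', ← ha', ← hι a]
      have := aeval_algHom_apply ((aeval (R := K) (ι a)).restrictScalars D) f ((psi D s) ^ (k + 1))
      exact this.symm
    apply IsIntegral.of_aeval_monic (p := ((psi D s) ^ (k + 1)).map (algebraMap D (intK D K A)))
    · exact hmon.map _
    · rw [hmon.natDegree_map]
      exact hdeg
    · rw [aeval_map_algebraMap]
      exact isIntegral_algebraMap (x := (⟨_, hmem⟩ : intK D K A))

end Pool.Agent.Results.MP_457b0e_al.IntegralClosure
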